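import Pool.Agent.T6.H33.ST.Main

/-!
# The motivic Sato-Tate conjecture and the Tate classes of degree four

Let `(M_i)` be a finite family of pure polarised motives over a finitely generated field, `G` the group
of the points of the motivic Galois group of the sum of the `M_i` and of the Tate motive, with values in
an algebraic closure `K` of `ℚ_ℓ`; the Galois group `Γ` maps to `G` by `ι`, `q` is the character of `G`
on the Tate motive, and `T i` is the realization of `M_i`, with coefficients in `K`. All tensor
constructions are multilinear forms on the spaces `T i` (the polarizations identify the duals with Tate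
twists).

Hypotheses (all of them are properties of motives and of their ℓ-adic realizations):

* `IsPolarized`: `T i` has a nondegenerate form on which `G` acts through `q ^ (w i)`;
* `IsReductive`: `G` is reductive: forms which are killed by the Lie algebra are fixed by a subgroup of
  finite index, and the representations on the `End (T i)` of the subgroups of finite index of `G` are
  semisimple;
* the representations of `Γ` on the `End (T i)` are semisimple (for abelian varieties this is a theorem
  of Faltings);
* `IsNeat`: two eigenvalues of elements of a suitable subgroup of finite index of `Γ` are equal if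
  their quotient is a root of unity (this is true for all ℓ-adic representations of compact groups).

**Theorem.** Every form on which a subgroup of finite index of `Γ` acts through `q ^ j` is a form on
which a subgroup of finite index of `G` acts through `q ^ j` (`AllTateMotivated`: the identity
components of the ℓ-adic monodromy group and of the motivic Galois group are equal) if and only if

1. the same is true for the classes in the `M_x ⊗ M_x^∨ ⊗ M_y ⊗ M_y^∨` (`FourfoldTateMotivated`), and
   the centre of the Lie algebra of `G` is contained in the Lie algebra of the ℓ-adic monodromy group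
   (`CentreIsTate`);
2. or: the same is true for the classes in the `M_i ⊗ M_i^∨` (`EndosMotivated`), the Lie algebra of the
   ℓ-adic monodromy group is stable under a subgroup of finite index of `G` (`LieIsMotivic`), and
   `CentreIsTate`.

If no motive has a factor of type IV (`NoTypeFour`: the central endomorphisms are self-adjoint) and the
character `q` has infinite order on `Γ`, the condition `CentreIsTate` can be omitted in both
statements. If moreover `Γ` maps onto all finite quotients of `G` then the Tate classes in the
`M_x ⊗ M_x^∨ ⊗ M_y ⊗ M_y^∨` decide about the motivic Sato-Tate conjecture itself (`SameClasses`).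

The group `Γ` is an abstract group, there is no Zariski closure. Proof: if the Lie algebra `𝔤` of the
monodromy group is stable under a subgroup of finite index of `G` there is an equivariant projector
`P` onto it, which commutes with the Lie algebra `𝔪` of `G`; so `𝔤` commutes with `𝔠 = ker P ∩ 𝔪`. Tate
classes are multiplicative on generalised eigenspaces, so that `𝔤` contains the logarithms of the
semisimple parts of the elements of `Γ`, for all additive characters `Kˣ → K`. Hence the neat
elements of `Γ` act on `𝔠` through unipotent maps, by the theorem of Kolchin and the semisimplicity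
they act trivially, and `𝔠` consists of endomorphisms of the motives, it is central. Without type IV
the centre consists of similitudes, and the invariant projection of a logarithm is a similitude in
`𝔤`.
-/

set_option autoImplicit false

namespace Pool.Agent.Results.MP_d61fbb_ag.FourthPowers

open Pool.Agent.T6.H33.ST

/-- **The Tate classes of degree four decide.** -/
theorem result {K Γ G I : Type} [Field K] [CharZero K] [IsAlgClosed K] [Group Γ] [Group G] [Finite I]
    {T : I → Type} [∀ i, AddCommGroup (T i)] [∀ i, Module K (T i)] [∀ i, FiniteDimensional K (T i)]
    -- the Galois group, the motivic Galois group, the character of the Tate motive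
    (ι : Γ →* G) (q : G →* Kˣ)
    -- the motives, their weights and polarizations
    (ρ : ∀ i, Representation K G (T i)) (w : I → ℤ) (B : ∀ i, T i →ₗ[K] T i →ₗ[K] K)
    (hB : IsPolarized q ρ w B) (hG : IsReductive q ρ)
    (hss : ∀ i, (conjRep ι (ρ i)).IsSemisimpleRepresentation) (hneat : ∀ i, IsNeat ι (ρ i)) :
    (AllTateMotivated ι q ρ ↔ FourfoldTateMotivated ι ρ ∧ CentreIsTate ι q ρ) ∧
    (AllTateMotivated ι q ρ ↔ EndosMotivated ι ρ ∧ LieIsMotivic ι q ρ ∧ CentreIsTate ι q ρ) ∧
    (NoTypeFour ρ B → NotTorsion ι q →
      (AllTateMotivated ι q ρ ↔ FourfoldTateMotivated ι ρ) ∧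
      (AllTateMotivated ι q ρ ↔ EndosMotivated ι ρ ∧ LieIsMotivic ι q ρ) ∧
      (OntoQuotients ι → FourfoldTateMotivated ι ρ → SameClasses ι q ρ)) := by
  have h1 : EndosMotivated ι ρ → LieIsMotivic ι q ρ → CentreIsTate ι q ρ →
      AllTateMotivated ι q ρ := fun hE hL hC =>
    all_of_lie hG.algebraic fun m hm => lieT_eq hB hG hE hL hss hneat hC hm
  have h2 : AllTateMotivated ι q ρ → FourfoldTateMotivated ι ρ := fourfold_of_all hB
  have h3 : FourfoldTateMotivated ι ρ → EndosMotivated ι ρ := endosMotivated_of_fourfold
  have h4 : FourfoldTateMotivated ι ρ → LieIsMotivic ι q ρ := lieIsMotivic_of_fourfold hss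
  have h5 : NoTypeFour ρ B → NotTorsion ι q → EndosMotivated ι ρ → CentreIsTate ι q ρ :=
    fun hN hq hE => centre_of_noTypeFour hB hG.algebraic hE hss hN hq
  refine ⟨⟨fun h => ⟨h2 h, centre_of_all h⟩, fun h => h1 (h3 h.1) (h4 h.1) h.2⟩,
    ⟨fun h => ⟨h3 (h2 h), h4 (h2 h), centre_of_all h⟩, fun h => h1 h.1 h.2.1 h.2.2⟩,
    fun hN hq => ⟨⟨h2, fun h => h1 (h3 h) (h4 h) (h5 hN hq (h3 h))⟩,
      ⟨fun h => ⟨h3 (h2 h), h4 (h2 h)⟩, fun h => h1 h.1 h.2 (h5 hN hq h.1)⟩,
      fun ho h => same_of_all ho (h1 (h3 h) (h4 h) (h5 hN hq (h3 h)))⟩⟩

end Pool.Agent.Results.MP_d61fbb_ag.FourthPowers
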