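import Pool.Agent.T6.H77.MS.Pub

/-!
# The motivic Sato-Tate conjecture from the factorization patterns of Frobenius polynomials

Let `M` be a motive (of André, or for absolute Hodge cycles) of ANY weight `w` over a finitely
generated field, `N` a second motive, and let `G` be the group of the points of the motivic Galois
group of `M ⊕ N` (and of the Tate motives) with values in an algebraic closure `K` of `ℚ_ℓ`; the
Galois group `Γ` maps to `G` by `ι`, and `q` is the character of the Lefschetz motive. Let the
realization of `M`, with coefficients in `K`, be a direct summand `V` of a sum of copies of a
representation `T` of `G` (for example `T = V`) with a polarization `B` (symmetric for even `w`,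
alternating for odd `w`). Let `T` be the sum of subspaces `U c` which are stable under a subgroup `G₀`
of finite index, where `U c` is orthogonal to all `U d` except for `d = star c` for an involution
`star` (`PolarizedBlocks`: for a motive with coefficients in a number field `E` the `U c` are the
eigenspaces of `E`; for a totally real field `star` is the identity, for a CM field it is the complex
conjugation, so that motives of unitary type are included; for `E = ℚ` there is one block). Suppose
(`BlockData`) that for every block `U = U c`:

* (`RationalStructure`) `U`, with the action of a subgroup `Γ₀` of finite index of `Γ`, comes from a
  representation over a subfield `K₀` of `K` (in the applications a completion `E_λ`), of dimension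
  `n`;
* (`Patterns`) for the elements `s` of a set `S` (in the applications: Frobenius elements), let `A_s`,
  with coefficients in `K₀`, be the characteristic polynomials; `A_s` has distinct roots in `K`, no
  quotient of two of them is a root of unity; for every `d` with `0 < d < n` there is an `s` in `S`
  such that `A_s` has no divisor of the degree `d` over `K₀`; and `1` is the only common divisor of
  the degrees of all the divisors of all the `A_s` (for example: one of the `A_s` is irreducible
  over `K₀`, and another one has a root in `K₀`);
* (`IsolatedValue`) if `U` is not a line then there is an element `s` (a Frobenius element) and a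
  root `a` of its characteristic polynomial on `U` which is a simple isolated root of its
  characteristic polynomial `P` on `T` (`~` is the equality up to a root of unity): `a δ ~ β γ` for
  roots `β`, `γ`, `δ` of `P` only if `β = a` or `γ = a` or `a δ ~ q(s) ^ w`; and no power
  `(β / a) ^ n`, `n > 0`, for a root `β ≠ a` is in a group `H s` of numbers which contains `q s` and
  the eigenvalues of `s` on the given representations `E i` (the tannakian category of `N`).

For `star c ≠ c` the determinant of some element on `U c` is supposed to be independent
(`IndependentDet`). So all the conditions are conditions on Frobenius polynomials. NOTHING is supposed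
about the image of the Galois group (irreducibility, semisimplicity, monodromy), about Hodge numbers
or inertia groups.

**Theorem.**

* (`BlockIrreducible`) The blocks `U c` are irreducible over the algebraically closed field under all
  subgroups of finite index of the Galois group.
* All Tate classes in all the representations `Hom (M ^ n, E i)` and their Tate twists are motivated if
  and only if this is true for the `E i`: the motivic Mumford-Tate conjecture holds for `M ⊕ N`
  if and only if it holds for `N`.
* In particular, the motivic Mumford-Tate conjecture holds for `M` (if the character `q` has infinite
  order on `Γ`).
* If moreover the Galois group maps onto all finite quotients of the motivic Galois group then the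
  motivic Tate conjecture and the motivic Sato-Tate conjecture hold for `M`, without an extension of
  the field (`SameTateClasses`): every vector in a tensor construction `Hom (M ^ n, 1)` on which the
  Galois group acts through a power of `q` is a vector on which the motivic Galois group acts through
  the same power of `q`. (The two groups are reductive here, so that this is the equality
  `G_{ℓ,k}(M) = 𝒢_k(M)`, and hence of the kernels of the multipliers, the equality in Q1 of the
  problem.)

The theorem `TwoFrobeniusMotives` in this folder treats one block of even weight for which `1` or `-1`
is an eigenvalue of the normalized Frobenius element (for instance for odd rank), by means of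
discriminants; that eigenvalue excludes the patterns above. The present theorem is about the other
motives: all motives of odd weight, the motives of even weight and even rank, and the blocks of
unitary type.

Proof. An operator with distinct eigenvalues, whose quotients are not roots of unity, is a polynomial
in each of its powers. So a `K₀`-subspace of the block which is stable under a subgroup `Δ` of finite
index is stable under all elements of `S`, and its dimension is the degree of a divisor of each of the
polynomials `A_s`; so the representation of `Δ` over `K₀` is irreducible. Its commutant is a division
algebra `D`; the kernels of `B(s)`, for the divisors `B` of `A_s`, are vector spaces over `D`, so that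
`[D : K₀]` divides the degrees of all these divisors. Hence `D = K₀`, and by the density theorem the
elements of `Δ` generate the algebra of all endomorphisms. With this strong irreducibility and the
isolated roots the theorem `IsolatedMotives` can be applied.
-/

set_option autoImplicit false

namespace Pool.Agent.Results.MP_d61fbb_ag.FrobeniusPatterns

open Pool.Agent.Y130.MT Pool.Agent.Y130.MM Pool.Agent.Y134.MR Pool.Agent.T6.H77.MS

section

variable {K : Type} [Field K] [CharZero K] [IsAlgClosed K] {Γ G : Type} [Group Γ] [Group G]
  {V : Type} [AddCommGroup V] [Module K V] {T : Type} [AddCommGroup T] [Module K T]
  [FiniteDimensional K T] {C : Type} [Finite C]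
  {I : Type} {E : I → Type} [∀ i, AddCommGroup (E i)] [∀ i, Module K (E i)]

/-- The hypotheses: `T` is a polarized motive of weight `w` with the blocks `U c`; all blocks satisfy
`BlockData`; for `star c ≠ c` the determinant on `U c` is independent; the eigenvalues on the
representations `E i` are in the groups `H s`. -/
structure Hypotheses (ι : Γ →* G) (q : G →* Kˣ) (w : ℕ) (τ : Representation K G T)
    (B : T →ₗ[K] T →ₗ[K] K) (U : C → Submodule K T) (star : C → C) (G₀ : Subgroup G)
    (H : Γ → Subgroup Kˣ) (σ : ∀ i, Representation K G (E i)) : Prop where
  polarized : PolarizedBlocks q w τ B U star G₀
  tate : ∀ s, q (ι s) ∈ H s
  block : ∀ c, BlockData ι q w τ H (U c)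
  det : ∀ c, star c ≠ c → ∃ s, IndependentDet (τ (ι s)) U c (star c) (H s)
  eigenvalues : ∀ i, EigenvaluesIn ι H (σ i)

/-- The conclusions: irreducibility of the blocks; the relative statement for `M ⊕ N`; the motivic
Mumford-Tate conjecture for `M`; the motivic Tate and Sato-Tate conjectures for `M`. -/
structure Conclusions (ι : Γ →* G) (q : G →* Kˣ) (ρ : Representation K G V)
    (τ : Representation K G T) (U : C → Submodule K T) (σ : ∀ i, Representation K G (E i)) :
    Prop where
  irreducible : ∀ c, BlockIrreducible ι τ (U c)
  relative : (∀ n i, TateMotivated ι q (homRep n ρ (σ i))) ↔ ∀ i, TateMotivated ι q (σ i)
  mumfordTate : InfiniteOrder ι q →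
    ∀ n, TateMotivated ι q (homRep n ρ (Representation.trivial K G K))
  satoTate : InfiniteOrder ι q → OntoQuotients ι →
    ∀ n, SameTateClasses ι q (homRep n ρ (Representation.trivial K G K))

end

/-- **The motivic Sato-Tate conjecture from the factorization patterns of Frobenius polynomials.** -/
theorem result {K : Type} [Field K] [CharZero K] [IsAlgClosed K]
    {Γ G : Type} [Group Γ] [Group G] (ι : Γ →* G) (q : G →* Kˣ)
    (w : ℕ) {V : Type} [AddCommGroup V] [Module K V] (ρ : Representation K G V)
    {T : Type} [AddCommGroup T] [Module K T] [FiniteDimensional K T] (τ : Representation K G T)
    (hV : SummandOfCopies τ ρ) (B : T →ₗ[K] T →ₗ[K] K)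
    {C : Type} [Finite C] (U : C → Submodule K T) (star : C → C) (G₀ : Subgroup G)
    (H : Γ → Subgroup Kˣ)
    {I : Type} (E : I → Type) [∀ i, AddCommGroup (E i)] [∀ i, Module K (E i)]
    [∀ i, FiniteDimensional K (E i)] (σ : ∀ i, Representation K G (E i))
    (h : Hypotheses ι q w τ B U star G₀ H σ) : Conclusions ι q ρ τ U σ := by
  have hI := isolatedMotive h.polarized h.tate (fun c => (h.block c).condition) h.det
  exact ⟨fun c => (h.block c).condition.irreducible, motivated_iff hV hI h.eigenvalues,
    fun hq n => motivated_trivial hV hI hq n,
    fun hq hι n => same_of_motivated hι (motivated_trivial hV hI hq n)⟩

end Pool.Agent.Results.MP_d61fbb_ag.FrobeniusPatterns
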