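import Pool.Agent.T6.H77.MS.OddR

/-!
# MP_d61fbb_ag: the motivic Sato-Tate conjecture, from one prime to 100 percent of the primes

`Motive Γ N` (Pool/Agent/T6/H77/MS/One.lean) is the data which Q1 attaches to a pure motive `M` of
rank `N` over a field `k` with absolute Galois group `Γ`, in a `ℚ`-basis of `ω(M)`: the polarisation
`φ`, equations over `ℚ` of the motivic Galois group, and the continuous `ℓ`-adic realisations
`ρ_ℓ : Γ → GL_N(ℚ_ℓ)`, with values in the similitudes of `φ` and in the motivic Galois group.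

* `M.SatoTate ℓ`: the motivic Sato-Tate conjecture for `M` at `ℓ`, i.e. `G_{1,ℓ}(M) = 𝒢_1(M)_{ℚ_ℓ}`,
  as equality of the groups of points over the algebraic closure of `ℚ_ℓ`: an isometry of `φ` lies in
  the Zariski closure of `ρ_ℓ(Γ)` if and only if it lies in the motivic Galois group.
* `M.Big`: `𝒢(M)` contains the isometries of `φ` of determinant one. So `𝒢_1(M)` is the symplectic
  group in odd weight, and the special orthogonal or the orthogonal group in weight zero.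
* `Fibre M K`: a specialisation `s : Γ_K → Γ` for a number field `K` (`s = id` if `k = K`) such that
  the `ρ_ℓ ∘ s` form a compatible system: the Frobenius polynomials `P v` and the multipliers `q v`
  are rational and do not depend on `ℓ`.
* `x.Full ℓ`: `ρ_ℓ ∘ s` and `ρ_ℓ` have the same image (automatic if `s = id`; in general such `x` exist
  for every `ℓ`, by Serre and Terasoma).
* `x.DetOK`: if `𝒢(M)` has an isometry of determinant `-1`, then some Frobenius element has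
  determinant different from `1`.
-/

set_option autoImplicit false

open Matrix Polynomial NumberField IsDedekindDomain
open Pool.Agent.Y142.ZO (GK)
open Pool.Agent.Y142.ZI (DensityZero)
open Pool.Agent.T6.H77.MS (Motive Fibre)

namespace Pool.Agent.Results.MP_d61fbb_ag.OnePrime

section

variable {Γ : Type} [Group Γ] [TopologicalSpace Γ] {N : ℕ} {M : Motive Γ N} {K : Type} [Field K]
  [NumberField K]

/-- odd weight, or weight zero and rank `5`, `7` or at least `8` -/
def Admissible (M : Motive Γ N) : Prop :=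
  (M.φᵀ = -M.φ ∧ 0 < N) ∨
    (M.φᵀ = M.φ ∧ (∀ (ℓ : ℕ) [Fact ℓ.Prime] (γ : Γ), M.Isometry (M.ρ ℓ γ)) ∧ 5 ≤ N ∧ N ≠ 6)

/-- the prime `ℓ` is not one of finitely many exceptions -/
def GoodPrime (M : Motive Γ N) (ℓ : ℕ) : Prop :=
  (M.φᵀ = -M.φ → ℓ ≠ 2) ∧
    (M.φᵀ = M.φ → (Odd N → ¬ ℓ ∣ N - 1) ∧
      (Even N → ¬ ℓ ∣ (N - 2) * (N - 4) ∧ Even (padicValRat ℓ M.φ.det)))

/-- the roots of the Frobenius polynomial at `v` are simple and no quotient of two different roots
is a root of unity -/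
def Nice (x : Fibre M K) (v : HeightOneSpectrum (𝓞 K)) : Prop :=
  v ∉ x.S ∧ (x.P v).Monic ∧ (x.P v).Separable ∧
    ∀ (j : ℕ) (a b : AlgebraicClosure ℚ), 0 < j → aeval a (x.P v) = 0 → aeval b (x.P v) = 0 →
      a ^ j = b ^ j → a = b

/-- Odd weight: the polynomial at `v` is nice, the one at `w` is generic (the only coincidences
between quotients of different roots are the forced ones), and some automorphism permutes the roots
of the first cyclically and fixes the roots of the second. -/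
def OddWeightCriterion (x : Fibre M K) : Prop :=
  ∃ v w : HeightOneSpectrum (𝓞 K), Nice x v ∧
    (w ∉ x.S ∧ (x.P w).Monic ∧ (x.P w).Separable ∧ x.q w ≠ 0 ∧
      ∀ a b c d : AlgebraicClosure ℚ, aeval a (x.P w) = 0 → aeval b (x.P w) = 0 →
        aeval c (x.P w) = 0 → aeval d (x.P w) = 0 → a ≠ b → a * d = c * b →
          (c = a ∧ d = b) ∨ (c * b = (x.q w : AlgebraicClosure ℚ) ∧
            d * a = (x.q w : AlgebraicClosure ℚ))) ∧
    ∃ σ : GK ℚ, (∀ a b : AlgebraicClosure ℚ, aeval a (x.P v) = 0 → aeval b (x.P v) = 0 →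
      ∃ k : ℕ, (σ ^ k) a = b) ∧ ∀ a : AlgebraicClosure ℚ, aeval a (x.P w) = 0 → σ a = a

/-- Weight zero, even rank: there are an automorphism `σ`, nice places `v_d` such that for
`0 < d < N` no set of `d` roots of the polynomial at `v_d` is stable under `σ`, and a place `w` whose
polynomial is nice and generic and has a root fixed by `σ`. -/
def EvenRankCriterion (x : Fibre M K) : Prop :=
  ∃ (σ : GK ℚ) (v : ℕ → HeightOneSpectrum (𝓞 K)) (w : HeightOneSpectrum (𝓞 K)),
    (∀ d, Nice x (v d)) ∧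
    (∀ d, 0 < d → d < N → ∀ T : Set (AlgebraicClosure ℚ), (∀ a ∈ T, aeval a (x.P (v d)) = 0) →
      (∀ a ∈ T, σ a ∈ T) → T.ncard ≠ d) ∧
    (Nice x w ∧ (∀ a : AlgebraicClosure ℚ, aeval a (x.P w) = 0 → a * a ≠ 1) ∧
      ∀ a b c d : AlgebraicClosure ℚ, aeval a (x.P w) = 0 → aeval b (x.P w) = 0 →
        aeval c (x.P w) = 0 → aeval d (x.P w) = 0 → a ≠ b → a * d = c * b →
          (c = a ∧ d = b) ∨ (c * b = 1 ∧ d * a = 1)) ∧
    ∃ a : AlgebraicClosure ℚ, aeval a (x.P w) = 0 ∧ σ a = a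

/-- the Frobenius polynomial at `v` is `(X - 1) Q` and no root of `Q` is a root of unity -/
def Tame (x : Fibre M K) (v : HeightOneSpectrum (𝓞 K)) (Q : ℚ[X]) : Prop :=
  v ∉ x.S ∧ x.P v = (X - 1) * Q ∧ ∀ n : ℕ, 0 < n → IsCoprime Q (X ^ n - 1)

/-- Weight zero, odd rank: there are places `v₀, v₂` whose polynomials `(X - 1) Q` have no other root
of unity as a root, such that the product of two roots of `Q₀` is never a root of `Q₀` and
`Q₀(1) Q₀(-1) Q₂(1) Q₂(-1)` is not a square, and a place `v₁` whose polynomial `(X - 1) Q₁` has simple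
roots without coincidences between their powers, with an automorphism which permutes the roots of
`Q₁` cyclically. -/
def OddRankCriterion (x : Fibre M K) : Prop :=
  ∃ (v₀ v₁ v₂ : HeightOneSpectrum (𝓞 K)) (Q₀ Q₁ Q₂ : ℚ[X]), Tame x v₀ Q₀ ∧
    (∀ a b c : ℂ, aeval a Q₀ = 0 → aeval b Q₀ = 0 → aeval c Q₀ = 0 → a * b ≠ c) ∧
    Tame x v₂ Q₂ ∧ ¬ IsSquare (Q₀.eval 1 * Q₀.eval (-1) * (Q₂.eval 1 * Q₂.eval (-1))) ∧
    (v₁ ∉ x.S ∧ x.P v₁ = (X - 1) * Q₁ ∧ Q₁.Monic ∧ Q₁.Separable ∧ Q₁.eval 1 ≠ 0 ∧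
      ∀ (j : ℕ) (a b : AlgebraicClosure ℚ), 0 < j → aeval a ((X - 1) * Q₁) = 0 →
        aeval b ((X - 1) * Q₁) = 0 → a ^ j = b ^ j → a = b) ∧ 0 < Q₁.natDegree ∧
    ∃ σ : GK ℚ, ∀ a b : AlgebraicClosure ℚ, aeval a Q₁ = 0 → aeval b Q₁ = 0 →
      ∃ k : ℕ, (σ ^ k) a = b

/-- the criterion in terms of finitely many Frobenius polynomials -/
def Criterion (x : Fibre M K) : Prop :=
  (M.φᵀ = -M.φ → OddWeightCriterion x) ∧
    (M.φᵀ = M.φ → x.DetOK ∧ (Odd N → OddRankCriterion x) ∧ (Even N → EvenRankCriterion x))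

/-- the set of primes at which the motivic Sato-Tate conjecture for `M` fails -/
def Bad (M : Motive Γ N) : Set ℕ := {ℓ | ∃ _ : Fact ℓ.Prime, ¬ M.SatoTate ℓ}

/-- a form cannot be symmetric and alternating -/
theorem not_both (M : Motive Γ N) (hN : 0 < N) (h1 : M.φᵀ = -M.φ) (h2 : M.φᵀ = M.φ) : False := by
  haveI : Nonempty (Fin N) := ⟨⟨0, hN⟩⟩
  have h3 : M.φ = -M.φ := h2.symm.trans h1
  have h4 : M.φ = 0 := by
    ext i j
    have h5 := congrFun (congrFun h3 i) j
    rw [Matrix.neg_apply] at h5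
    rw [Matrix.zero_apply]
    linarith
  exact M.nondeg (by rw [h4]; exact Matrix.det_zero)

/-- almost all primes are good -/
theorem exists_bound (M : Motive Γ N) (hM : Admissible M) :
    ∃ b : ℕ, ∀ ℓ : ℕ, b < ℓ → ℓ.Prime → GoodPrime M ℓ := by
  refine ⟨2 + N + (N - 2) * (N - 4) + M.φ.det.num.natAbs + M.φ.det.den, fun ℓ hℓ hp => ?_⟩
  refine ⟨fun _ h => by omega, fun hs => ⟨fun _ hd => ?_, fun _ => ⟨fun hd => ?_, ?_⟩⟩⟩
  · rcases hM with ⟨h1, h2⟩ | ⟨-, -, h5, -⟩
    · exact not_both M h2 h1 hs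
    · have := Nat.le_of_dvd (by omega) hd
      omega
  · rcases hM with ⟨h1, h2⟩ | ⟨-, -, h5, -⟩
    · exact not_both M h2 h1 hs
    · have h6 : 0 < (N - 2) * (N - 4) := Nat.mul_pos (by omega) (by omega)
      have := Nat.le_of_dvd h6 hd
      omega
  · have h1 : padicValRat ℓ M.φ.det = 0 := by
      unfold padicValRat
      have hn : M.φ.det.num ≠ 0 := Rat.num_ne_zero.2 M.nondeg
      have h2 : padicValInt ℓ M.φ.det.num = 0 := by
        unfold padicValInt
        refine padicValNat.eq_zero_of_not_dvd fun hd => ?_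
        have := Nat.le_of_dvd (Int.natAbs_pos.2 hn) hd
        omega
      have h3 : padicValNat ℓ M.φ.det.den = 0 := by
        refine padicValNat.eq_zero_of_not_dvd fun hd => ?_
        have := Nat.le_of_dvd M.φ.det.den_pos hd
        omega
      rw [h2, h3]
      rfl
    rw [h1]
    exact ⟨0, rfl⟩

theorem criterion_of_one (hM : Admissible M) (x : Fibre M K) (ℓ : ℕ) [Fact ℓ.Prime]
    (hℓ : GoodPrime M ℓ) (hx : x.Full ℓ) (hbig : M.Big) (hST : M.SatoTate ℓ) : Criterion x := by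
  rcases hM with ⟨hφ, hN⟩ | ⟨hφ, hw, h5, h6⟩
  · exact ⟨fun _ => Pool.Agent.T6.H77.MS.criterion_of_one x hφ hN hbig (hℓ.1 hφ) hx hST,
      fun h => (not_both M hN hφ h).elim⟩
  · refine ⟨fun h => (not_both M (by omega) h hφ).elim, fun _ => ⟨?_, fun ho => ?_, fun he => ?_⟩⟩
    · exact Pool.Agent.T6.H77.MS.detOK_of_one x hx hST
    · exact (Pool.Agent.T6.H77.MS.criterionO_of_one x hφ hw ho h5 hbig ((hℓ.2 hφ).1 ho) hx hST).1
    · have h8 : 8 ≤ N := by
        obtain ⟨k, hk⟩ := he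
        omega
      exact (Pool.Agent.T6.H77.MS.criterionE_of_one x hφ hw he h8 hbig ((hℓ.2 hφ).2 he).1
        ((hℓ.2 hφ).2 he).2 hx hST).1

end

/-- **The motivic Sato-Tate conjecture for one prime, a criterion in terms of finitely many
Frobenius polynomials, and the motivic Sato-Tate conjecture for 100 percent of the primes.** -/
theorem result (Γ : Type) [Group Γ] [TopologicalSpace Γ] (N : ℕ) (M : Motive Γ N)
    (hM : Admissible M) (K : Type) [Field K] [NumberField K] (x : Fibre M K) :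
    (∀ (ℓ : ℕ) [Fact ℓ.Prime], GoodPrime M ℓ → x.Full ℓ → M.Big → M.SatoTate ℓ → Criterion x) ∧
    (Criterion x → M.Big ∧ DensityZero (Bad M)) ∧
    ((∀ (ℓ : ℕ) [Fact ℓ.Prime], x.Full ℓ) → M.Big → DensityZero (Bad M) → Criterion x) := by
  refine ⟨fun ℓ _ hℓ hx hbig hST => criterion_of_one hM x ℓ hℓ hx hbig hST, fun hc => ?_,
    fun hx hbig hd => ?_⟩
  · rcases hM with ⟨hφ, hN⟩ | ⟨hφ, hw, h5, h6⟩
    · exact Pool.Agent.T6.H77.MS.density_of_criterion x hφ hN (hc.1 hφ)
    · rcases Nat.even_or_odd N with he | ho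
      · have h8 : 8 ≤ N := by
          obtain ⟨k, hk⟩ := he
          omega
        exact Pool.Agent.T6.H77.MS.density_of_criterionE x hφ hw he h8 ((hc.2 hφ).2.2 he)
          (hc.2 hφ).1
      · exact Pool.Agent.T6.H77.MS.density_of_criterionO x hφ hw ho (by omega)
          ((hc.2 hφ).2.1 ho) (hc.2 hφ).1
  · obtain ⟨b, hb⟩ := exists_bound M hM
    have hcyc : (Pool.Agent.Y142.ZI.Cyc (1 : ℚ[X])).Nonempty :=
      ⟨1, fun a _ ha _ => absurd ha (by rw [map_one]; exact one_ne_zero)⟩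
    obtain ⟨ℓ, hℓ, hp, hnot, -⟩ := Pool.Agent.Y142.ZI.exists_cyc
      (Pool.Agent.Y726.ZI.t2 Pool.Agent.Y726.ZI.t1) (one_ne_zero (α := ℚ[X])) hcyc (Bad M) hd b
    haveI : Fact ℓ.Prime := ⟨hp⟩
    have hST : M.SatoTate ℓ := by
      by_contra h
      exact hnot ⟨⟨hp⟩, h⟩
    exact criterion_of_one hM x ℓ (hb ℓ hℓ hp) (hx ℓ) hbig hST

end Pool.Agent.Results.MP_d61fbb_ag.OnePrime
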