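import Pool.Agent.T6.H33.ST.DetFinal

/-!
# The motivic Sato-Tate conjecture, classes of degree four and classes of rank one

The setting is that of the result `FourthPowers` (`Pool/Agent/T6/H33/ST/Defs.lean`): `(M_i)` is a finite
family of pure polarised motives, `G` the group of the points of the motivic Galois group of the sum of
the `M_i` and of the Tate motive with values in an algebraic closure `K` of `ℚ_ℓ`, the Galois group `Γ`
maps to `G` by `ι`, `q` is the character of `G` on the Tate motive, and `T i` is the realization of
`M_i`, with coefficients in `K`, with a nondegenerate form with the multiplier `q ^ (w i)`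
(`IsPolarized`). `G` is reductive (`IsReductive`), the representations of `Γ` on the `End (T i)` are
semisimple, and a subgroup of finite index of `Γ` consists of neat elements (`IsNeatFamily`; this is
true for all ℓ-adic representations of compact groups). There is **no condition on the type** of the
motives: the centres of the algebras of endomorphisms are arbitrary.

**Theorem.** Every form on which a subgroup of finite index of `Γ` acts through `q ^ j` is a form on
which a subgroup of finite index of `G` acts through `q ^ j` (`AllTateMotivated`: the identity
components of the ℓ-adic monodromy group and of the motivic Galois group are equal) if and only if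

* this is true for the classes in the `M_x ⊗ M_x^∨ ⊗ M_y ⊗ M_y^∨` (`FourfoldTateMotivated`), and for the
  one-dimensional spaces which are products of determinants of sums of isotypic components of the
  `M_i`, with coefficients in `K` (`DeterminantsMotivated`);
* or: this is true for the classes in the `M_i ⊗ M_i^∨` (`EndosMotivated`) and for the products of
  determinants, and the Lie algebra of the ℓ-adic monodromy group is stable under a subgroup of finite
  index of `G` (`LieIsMotivic`).

If moreover `Γ` maps onto all finite quotients of `G` then the Tate classes of degree four and of rank
one decide about the motivic Tate and Sato-Tate conjecture itself (`SameClasses`).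

The new point with respect to `FourthPowers`, where the centre of the Lie algebra of `G` is supposed
to be in the Lie algebra of the monodromy group, or the type IV is excluded, is that this is decided by
relations between determinants. Proof: let `z` be in the centre of the Lie algebra `𝔪` of `G`. For
`γ` in `Γ` and an additive map `l : Kˣ → ℚ` the logarithm of the semisimple part of `γ` is in the
Lie algebra `𝔤` of the monodromy group; its traces on the isotypic components are the rational numbers
`l (det γ)`. If these vectors of rational numbers satisfy a relation with integral coefficients then a
product of determinants is a power of `q` on the neat elements of `Γ` (negative exponents can be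
avoided by the polarization), hence on a subgroup of finite index of `G`, and the derivative
of this relation of determinant forms shows that the traces of `z` satisfy the same relation. So some
element `u` of `𝔤` has the same traces as `z` on all isotypic components; by semisimplicity `u` can be
chosen invariant under a subgroup of finite index of `Γ`, then it is in the centre of the algebra of
endomorphisms, like `z`, where the trace form is not degenerate, and `z = u`.
-/

set_option autoImplicit false

namespace Pool.Agent.Results.MP_d61fbb_ag.RankOneClasses

open Pool.Agent.T6.H33.ST

/-- **The Tate classes of degree four and of rank one decide.** -/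
theorem result {K Γ G I : Type} [Field K] [CharZero K] [IsAlgClosed K] [Group Γ] [Group G] [Finite I]
    {T : I → Type} [∀ i, AddCommGroup (T i)] [∀ i, Module K (T i)] [∀ i, FiniteDimensional K (T i)]
    -- the Galois group, the motivic Galois group, the character of the Tate motive
    (ι : Γ →* G) (q : G →* Kˣ)
    -- the motives, their weights and polarizations
    (ρ : ∀ i, Representation K G (T i)) (w : I → ℤ) (B : ∀ i, T i →ₗ[K] T i →ₗ[K] K)
    (hB : IsPolarized q ρ w B) (hG : IsReductive q ρ)
    (hss : ∀ i, (conjRep ι (ρ i)).IsSemisimpleRepresentation) (hneat : IsNeatFamily ι q ρ) :
    (AllTateMotivated ι q ρ ↔ FourfoldTateMotivated ι ρ ∧ DeterminantsMotivated ι q ρ) ∧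
    (AllTateMotivated ι q ρ ↔
      EndosMotivated ι ρ ∧ LieIsMotivic ι q ρ ∧ DeterminantsMotivated ι q ρ) ∧
    (OntoQuotients ι → FourfoldTateMotivated ι ρ → DeterminantsMotivated ι q ρ →
      SameClasses ι q ρ) := by
  have h1 : EndosMotivated ι ρ → LieIsMotivic ι q ρ → DeterminantsMotivated ι q ρ →
      AllTateMotivated ι q ρ := fun hE hL hD =>
    all_of_lie hG.algebraic fun m hm => lieT_eq hB hG hE hL hss (isNeat_of_family hneat)
      (centre_of_det hB hG hE hss hneat hD) hm
  have h2 : AllTateMotivated ι q ρ → FourfoldTateMotivated ι ρ := fourfold_of_all hB
  have h3 : FourfoldTateMotivated ι ρ → EndosMotivated ι ρ := endosMotivated_of_fourfold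
  have h4 : FourfoldTateMotivated ι ρ → LieIsMotivic ι q ρ := lieIsMotivic_of_fourfold hss
  exact ⟨⟨fun h => ⟨h2 h, det_of_all h⟩, fun h => h1 (h3 h.1) (h4 h.1) h.2⟩,
    ⟨fun h => ⟨h3 (h2 h), h4 (h2 h), det_of_all h⟩, fun h => h1 h.1 h.2.1 h.2.2⟩,
    fun ho h hD => same_of_all ho (h1 (h3 h) (h4 h) hD)⟩

end Pool.Agent.Results.MP_d61fbb_ag.RankOneClasses
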